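import Mathlib
import Pool.Agent.Lib_helper35.INS.TriArea
import Pool.Agent.Lib_helper35.INS.TriPart
import Pool.Agent.Lib_helper35.INS.TriKey

set_option autoImplicit false

namespace Pool.Agent.Results.MP_a813b7_co.AreaDisjointBound

open MeasureTheory Filter
open scoped ENNReal Topology

/-- The configurations: the sets of `3 * n` points of the closed unit square `[0,1]²`. -/
def Config (n : ℕ) : Set (Finset (ℝ × ℝ)) :=
  {P | P.card = 3 * n ∧ ∀ x ∈ P, x ∈ Set.Icc (0 : ℝ) 1 ×ˢ Set.Icc (0 : ℝ) 1}

/-- The area-disjoint partitions of `P` into triples: the sets `C` of pairwise disjoint three-element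
sets with union `P` for which the interiors of the triangles spanned by the members of `C` are
pairwise disjoint. -/
def AreaDisjointPartitions (P : Finset (ℝ × ℝ)) : Set (Finset (Finset (ℝ × ℝ))) :=
  {C | (∀ T ∈ C, T.card = 3) ∧ (∀ T ∈ C, ∀ T' ∈ C, T ≠ T' → Disjoint T T') ∧
    (∀ x, x ∈ P ↔ ∃ T ∈ C, x ∈ T) ∧
    ∀ T ∈ C, ∀ T' ∈ C, T ≠ T' → Disjoint (interior (convexHull ℝ (T : Set (ℝ × ℝ))))
      (interior (convexHull ℝ (T' : Set (ℝ × ℝ))))}

/-- The sum of the areas of the triangles spanned by the members of `C`. -/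
noncomputable def totalArea (C : Finset (Finset (ℝ × ℝ))) : ℝ≥0∞ :=
  ∑ T ∈ C, volume (convexHull ℝ (T : Set (ℝ × ℝ)))

/-- `b n`: the supremum over all configurations of `3 * n` points of the least total area of an
area-disjoint partition into triples. -/
noncomputable def b (n : ℕ) : ℝ≥0∞ :=
  ⨆ P ∈ Config n, ⨅ C ∈ AreaDisjointPartitions P, totalArea C

/-- Every configuration has an area-disjoint partition, so `b n` is defined by infima over nonempty
sets. -/
theorem nonempty (n : ℕ) (P : Finset (ℝ × ℝ)) (hP : P ∈ Config n) :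
    (AreaDisjointPartitions P).Nonempty := by
  obtain ⟨C, ⟨h1, h2, h3⟩, h4⟩ := Pool.Agent.Lib_helper35.INS.exists_partition hP.1
  exact ⟨C, h1, h2, h3, h4⟩

/-- `b n` is bounded below by a positive constant. -/
theorem bound (n : ℕ) (hn : 2 ≤ n) : ENNReal.ofReal (1 / (384 * 2 ^ 44)) ≤ b n := by
  · have hn1 : 1 ≤ n := by omega
    obtain ⟨y, hgp, h01, hPhi⟩ := Pool.Agent.Lib_helper85.Crossing.exists_good n hn1
    set pt : Fin (3 * n) → ℝ × ℝ :=
      fun k => (Pool.Agent.Lib_helper85.Crossing.xx (3 * n) k, y k) with hpt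
    have hinj : Function.Injective pt := fun i j hij =>
      (Pool.Agent.Lib_helper85.Crossing.xx_strictMono (3 * n)).injective (congrArg Prod.fst hij)
    have hP : Finset.univ.image pt ∈ Config n := by
      refine ⟨?_, ?_⟩
      · rw [Finset.card_image_of_injective _ hinj, Finset.card_univ, Fintype.card_fin]
      · intro x hx
        obtain ⟨k, -, rfl⟩ := Finset.mem_image.1 hx
        refine ⟨⟨?_, ?_⟩, ⟨(h01 k).1, (h01 k).2⟩⟩
        · simp only [hpt, Pool.Agent.Lib_helper85.Crossing.xx]
          positivity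
        · simp only [hpt, Pool.Agent.Lib_helper85.Crossing.xx]
          have h1 : ((k : ℕ) : ℝ) ≤ ((3 * n : ℕ) : ℝ) := by exact_mod_cast k.isLt.le
          apply div_le_one_of_le₀ h1
          positivity
    refine le_trans ?_ (le_iSup₂ (f := fun P _ => ⨅ C ∈ AreaDisjointPartitions P, totalArea C)
      (Finset.univ.image pt) hP)
    refine le_iInf₂ (fun C hC => ?_)
    obtain ⟨h3, hd, hu, hint⟩ := hC
    obtain ⟨σ, e, he⟩ := Pool.Agent.Lib_helper35.INS.partition_index hinj
      (P := Finset.univ.image pt) (fun x => by rw [Finset.mem_image]; simp) ⟨h3, hd, hu⟩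
    have key := Pool.Agent.Lib_helper35.INS.key n hn1 y hgp hPhi σ (by
      intro i j hij
      have h5 := hint (e i) (e i).2 (e j) (e j).2
        (fun h => hij (e.injective (Subtype.ext h)))
      rw [he i, he j] at h5
      exact h5)
    have hsum : totalArea C = ∑ i : Fin n, volume (convexHull ℝ ((e i : Finset (ℝ × ℝ)) :
        Set (ℝ × ℝ))) := by
      unfold totalArea
      rw [← Finset.sum_coe_sort C (fun T => volume (convexHull ℝ (T : Set (ℝ × ℝ))))]
      exact (Equiv.sum_comp e (fun T : C => volume (convexHull ℝ ((T : Finset (ℝ × ℝ)) :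
        Set (ℝ × ℝ))))).symm
    rw [hsum]
    refine (ENNReal.ofReal_le_ofReal key).trans ?_
    rw [ENNReal.ofReal_sum_of_nonneg (fun i _ => by positivity)]
    apply Finset.sum_le_sum
    intro i _
    rw [he i]
    exact Pool.Agent.Lib_helper35.INS.tri_area _ _ _

/-- Every configuration has an area-disjoint partition into triples, and `b n` does not tend to `0`:
it is bounded below by a positive constant for all `n ≥ 2`. -/
theorem result : (∀ n, ∀ P ∈ Config n, (AreaDisjointPartitions P).Nonempty) ∧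
    (∃ c : ℝ≥0∞, 0 < c ∧ ∀ n, 2 ≤ n → c ≤ b n) ∧ ¬ Tendsto b atTop (𝓝 0) := by
  have hc : (0 : ℝ≥0∞) < ENNReal.ofReal (1 / (384 * 2 ^ 44)) := ENNReal.ofReal_pos.2 (by positivity)
  refine ⟨nonempty, ⟨_, hc, bound⟩, fun h => ?_⟩
  obtain ⟨N, hN⟩ := eventually_atTop.1 (h.eventually (gt_mem_nhds hc))
  exact absurd (bound (max N 2) (le_max_right _ _)) (not_le.2 (hN (max N 2) (le_max_left _ _)))

end Pool.Agent.Results.MP_a813b7_co.AreaDisjointBound
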